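import Pool.Agent.Q188.FC.StmC
import Pool.Agent.W18.FV.UF
import Pool.Agent.W753.FV.BC

/-!
# Project FC (helper188), job PC: the functions `FF` in a chart
-/

set_option autoImplicit false

open MeasureTheory Set Metric Filter InnerProductGeometry

namespace Pool.Agent.Q53.FC.PC

open Pool.Agent.W716.FV (E UU)
open Pool.Agent.H241R3.FV (Sph RChart gnorm)
open Pool.Agent.Q188.FC

/-- the elementary inequality -/
theorem elem (a b u₁ u₂ r g : ℝ) (hg : 0 ≤ g) (h1 : u₁ ^ 2 ≤ r ^ 2) (h2 : u₂ ^ 2 ≤ r ^ 2)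
    (ha : a ^ 2 ≤ (r ^ 2 - u₁ ^ 2) * g) (hb : b ^ 2 ≤ (r ^ 2 - u₂ ^ 2) * g) :
    ((a - b) / 2) ^ 2 ≤ (r ^ 2 - ((u₁ - u₂) / 2) ^ 2) * g := by
  have h3 : 0 ≤ r ^ 2 + u₁ * u₂ := by nlinarith [sq_nonneg (u₁ + u₂)]
  have h4 : |a * b| ≤ (r ^ 2 + u₁ * u₂) * g := by
    apply abs_le_of_sq_le_sq _ (by positivity)
    have h5 : a ^ 2 * b ^ 2 ≤ ((r ^ 2 - u₁ ^ 2) * g) * ((r ^ 2 - u₂ ^ 2) * g) :=
      mul_le_mul ha hb (sq_nonneg _) ((sq_nonneg a).trans ha)
    have h6 : ((r ^ 2 + u₁ * u₂) * g) ^ 2 - ((r ^ 2 - u₁ ^ 2) * g) * ((r ^ 2 - u₂ ^ 2) * g) =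
        (r * (u₁ + u₂) * g) ^ 2 := by ring
    nlinarith [sq_nonneg (r * (u₁ + u₂) * g)]
  have h7 := abs_le.1 h4
  nlinarith [h7.1, h7.2]

theorem main (h1 : PhiFacts) : PhiChart := by
  intro n hn M _ bd hbd C
  obtain ⟨p1, p2, p3⟩ := h1 n hn M bd hbd
  obtain ⟨-, -, -, q4, -⟩ := Pool.Agent.W18.FV.UF.main n hn M bd hbd
  refine ⟨⟨fun c => p1 _, fun c₀ hc₀ => ?_⟩, ?_⟩
  · obtain ⟨r, hr, hb, hl⟩ := Pool.Agent.H241R3.FV.TLoc.taskLoc n M C c₀ hc₀ 1 one_pos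
    obtain ⟨K, hK, hKg⟩ := Pool.Agent.H241R3.FV.TDiff.gnorm_le (C.G c₀)
    refine ⟨r, K + 1, hr, by positivity, hb, fun c hc c' hc' y => ?_⟩
    refine (p3 _ _ y).trans ?_
    have h2 := hl c hc c' hc'
    have h3 := hKg (c - c')
    gcongr
    linarith
  · filter_upwards [Pool.Agent.W753.FV.BC.main Pool.Agent.W18.FV.UF.main n hn M bd hbd C] with c hc hcU
    obtain ⟨D, hDm, hD⟩ := hc hcU
    refine ⟨fun y => (1 / 2 : ℝ) • (D y - D (-y)), ?_, ?_⟩
    · exact ((hDm.sub (hDm.comp measurable_neg))).const_smul (1 / 2 : ℝ)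
    · have hD' : ∀ᵐ y ∂(volume : Measure (E n)), HasFDerivAt (fun c' => UU bd (C.map c') (-y))
          (D (-y)) c ∧ ∀ v : E n, (D (-y) v) ^ 2 ≤
          (‖-y‖ ^ 2 - UU bd (C.map c) (-y) ^ 2) * ∑ i, ∑ j, v i * C.G c i j * v j :=
        (Measure.measurePreserving_neg (volume : Measure (E n))).quasiMeasurePreserving.ae hD
      filter_upwards [hD, hD'] with y hy hy'
      constructor
      · have h2 := (hy.1.sub hy'.1).const_smul (1 / 2 : ℝ)
        refine h2.congr_of_eventuallyEq (Eventually.of_forall fun c' => ?_)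
        show FF bd (C.map c') y = (1 / 2 : ℝ) • (UU bd (C.map c') y - UU bd (C.map c') (-y))
        unfold FF
        rw [smul_eq_mul]
        ring
      · intro v
        have h2 := hy.2 v
        have h3 := hy'.2 v
        rw [norm_neg] at h3
        have hg : 0 ≤ ∑ i, ∑ j, v i * C.G c i j * v j := by
          rw [← Pool.Agent.W753.FV.BC.gnorm_sq (C.pos_G c hcU) v]
          positivity
        have u1 := q4 (C.map c) y
        have u2 := q4 (C.map c) (-y)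
        rw [norm_neg] at u2
        have h4 := elem _ _ _ _ _ _ hg u1 u2 h2 h3
        have h5 : ((1 / 2 : ℝ) • (D y - D (-y))) v = (D y v - D (-y) v) / 2 := by
          rw [smul_apply, sub_apply, smul_eq_mul]
          ring
        rw [h5]
        exact h4

end Pool.Agent.Q53.FC.PC
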