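import Pool.Agent.Q53.FC.GH
import Pool.Agent.H241R3.FV.TCover
import Pool.Agent.H241R3.FV.TCoverT
import Pool.Agent.H241R3.FV.TGen
import Pool.Agent.H241R3.FV.TParity
import Pool.Agent.H241R3.FV.TEven

/-!
# Project FC (helper188), job CC: covering
-/

set_option autoImplicit false

open MeasureTheory Set Metric InnerProductGeometry

namespace Pool.Agent.Q53.FC.CC

open Pool.Agent.W716.FV (E gam gd UU)
open Pool.Agent.H241R3.FV (Sph Fill Triang)
open Pool.Agent.Q188.FC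

theorem mv_lin {n : ℕ} (v : E n) : mv (fun z : E n => (inner ℝ z v : ℝ)) = v := by
  have h := (Pool.Agent.Q53.FC.GH.second v).2
  unfold mv
  simp only [real_inner_comm v] at h ⊢
  exact h

theorem NI_smul {n : ℕ} (p : E n) (c : ℝ) (v : E n) : NI p (c • v) = c • NI p v := by
  unfold NI
  rw [real_inner_smul_right, smul_sub, smul_smul]
  congr 2
  ring

theorem NI_sub {n : ℕ} (p v w : E n) : NI p (v - w) = NI p v - NI p w := by
  unfold NI
  rw [inner_sub_right, mul_sub, sub_smul]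
  abel

theorem norm_NI {n : ℕ} (p v : E n) (hp : ‖p‖ ≤ 1) (hl : 1 ≤ lf p) : ‖NI p v‖ ≤ 2 * ‖v‖ := by
  unfold NI
  have h1 : ‖(lf p / (1 + lf p) * inner ℝ p v) • p‖ ≤ ‖v‖ := by
    rw [norm_smul, norm_mul]
    have h2 : ‖lf p / (1 + lf p)‖ ≤ 1 := by
      rw [Real.norm_eq_abs, abs_of_nonneg (by positivity), div_le_one (by positivity)]
      linarith
    have h3 : ‖(inner ℝ p v : ℝ)‖ ≤ ‖p‖ * ‖v‖ := norm_inner_le_norm p v
    calc ‖lf p / (1 + lf p)‖ * ‖(inner ℝ p v : ℝ)‖ * ‖p‖ ≤ 1 * (‖p‖ * ‖v‖) * ‖p‖ := by gcongr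
      _ ≤ 1 * (1 * ‖v‖) * 1 := by gcongr
      _ = ‖v‖ := by ring
  calc ‖v - (lf p / (1 + lf p) * inner ℝ p v) • p‖ ≤
        ‖v‖ + ‖(lf p / (1 + lf p) * inner ℝ p v) • p‖ := norm_sub_le _ _
    _ ≤ 2 * ‖v‖ := by linarith

/-- the field at the boundary -/
theorem bdry (h2 : PhiFacts) (h4 : HatLin) (h5 : GGHat) {n : ℕ} (hn : 0 < n) {M : Type}
    [MetricSpace M] (bd : Sph n → M)
    (hbd : ∀ x y : Sph n, angle (x : E n) (y : E n) ≤ dist (bd x) (bd y)) (p : E n)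
    (hp : ‖p‖ < 1) (x : Sph n) :
    GG p (FF bd (bd x)) = (lf p)⁻¹ • NN p ((lf p * (1 - inner ℝ p (x : E n)))⁻¹ •
      NN p ((x : E n) - p)) ∧ GG p (FF bd (bd x)) ≠ 0 := by
  obtain ⟨p1, p2, -⟩ := h2 n hn M bd hbd
  have hx : ‖(x : E n)‖ = 1 := by simp
  obtain ⟨l1, -, -, -, -, -, l7⟩ := h4 n p hp
  set xh : E n := (lf p * (1 - inner ℝ p (x : E n)))⁻¹ • NN p ((x : E n) - p) with hxh
  have hxh1 : ‖xh‖ = 1 := l7 x hx
  have hc1 := (l1 x hx.le).1
  have hhat := (l1 x hx.le).2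
  have hc2 := (l1 xh hxh1.le).1
  have hF : FF bd (bd x) = fun y : E n => (inner ℝ y (x : E n) : ℝ) := funext fun y => p2 x y
  obtain ⟨g1, g2, -⟩ := h5 n p hp _ _ hc1 hc2 hhat
  rw [mv_lin] at g1 g2
  rw [hF]
  refine ⟨g1, fun h => ?_⟩
  have h0 := g2.1 h
  rw [h0, norm_zero] at hxh1
  exact zero_ne_one hxh1

theorem main (h1 : RMap) (h2 : PhiFacts) (h3 : BoostAlg) (h4 : HatLin) (h5 : GGHat)
    (h6 : GGLip) : CoverC := by
  intro d hd M _ _ S hS hT p hp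
  obtain ⟨b1, -, -, -, -, -, -, -, b9, b10, -⟩ := h3 (d + 1) p hp
  have hl0 : 0 < lf p := by linarith
  obtain ⟨p1, p2, p3⟩ := h2 (d + 1) (Nat.succ_pos d) M S.bd hS
  obtain ⟨R, K, hK, hR1, hR2, hR3⟩ := h1 (d + 1) p hp
  obtain ⟨K6, hK6, hK6l⟩ := h6 (d + 1) ‖p‖ hp
  set m : M → E (d + 1) := fun q => lf p • NI p (GG p (FF S.bd q)) with hm
  set Φ : M → E (d + 1) := fun q => R (m q) with hΦ
  have hlip : ∀ q q', ‖Φ q - Φ q'‖ ≤ dist q q' * (K * (lf p * (2 * K6))) := by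
    intro q q'
    have e1 : ‖GG p (FF S.bd q) - GG p (FF S.bd q')‖ ≤ K6 * dist q q' :=
      hK6l p le_rfl _ _ (p1 q) (p1 q') (dist q q') dist_nonneg (p3 q q')
    have e2 : ‖m q - m q'‖ ≤ lf p * (2 * (K6 * dist q q')) := by
      rw [hm]
      simp only
      rw [← smul_sub, ← NI_sub, norm_smul, Real.norm_eq_abs, abs_of_pos hl0]
      have e3 := norm_NI p (GG p (FF S.bd q) - GG p (FF S.bd q')) hp.le b1
      gcongr
      exact e3.trans (by gcongr)
    calc ‖Φ q - Φ q'‖ ≤ K * ‖m q - m q'‖ := hR1 _ _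
      _ ≤ K * (lf p * (2 * (K6 * dist q q'))) := by gcongr
      _ = _ := by ring
  have hcont : Continuous Φ := by
    have hL : LipschitzWith (Real.toNNReal (K * (lf p * (2 * K6)))) Φ := by
      refine LipschitzWith.of_dist_le_mul fun q q' => ?_
      rw [dist_eq_norm, Real.coe_toNNReal _ (by positivity), mul_comm]
      exact hlip q q'
    exact hL.continuous
  have hbdry : ∀ x, Φ (S.bd x) = (1 : ℝ) • (x : E (d + 1)) := by
    intro x
    have hx : ‖(x : E (d + 1))‖ = 1 := by simp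
    have e1 := (bdry h2 h4 h5 (Nat.succ_pos d) S.bd hS p hp x).1
    rw [hΦ, hm]
    simp only
    rw [e1, NI_smul, smul_smul, mul_inv_cancel₀ hl0.ne', one_smul, one_smul, b9]
    exact hR3 x hx
  have hsub : ball (0 : E (d + 1)) 1 ⊆ range Φ := by
    rcases hT with hT | hT
    · exact Pool.Agent.H241R3.FV.TCoverT.taskCoverT Pool.Agent.H241R3.FV.TGen.taskGen
        Pool.Agent.H241R3.FV.TParity.taskParity Pool.Agent.H241R3.FV.TEven.taskEven d hd M S.bd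
        hS hT Φ 1 _ one_pos hcont hlip hbdry
    · exact Pool.Agent.H241R3.FV.TCover.taskCover (d + 1) (Nat.succ_pos d) M S.bd hT Φ 1
        one_pos hcont hbdry
  obtain ⟨q, hq⟩ := hsub (mem_ball_self one_pos)
  refine ⟨q, ?_⟩
  have hm0 : m q = 0 := hR2 _ hq
  have h7 : NI p (GG p (FF S.bd q)) = 0 := by
    rw [hm] at hm0
    exact (smul_eq_zero.1 hm0).resolve_left hl0.ne'
  rw [← b10 (GG p (FF S.bd q)), h7]
  unfold NN
  simp

end Pool.Agent.Q53.FC.CC
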