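import Pool.Agent.Q53.FC.GH

/-!
# Project FC (helper188), job CM: moments of functions of class `Cc`
-/

set_option autoImplicit false

open MeasureTheory Set Metric

namespace Pool.Agent.Q53.FC.CM

open Pool.Agent.W716.FV (E gam gd)
open Pool.Agent.Q188.FC

theorem basis_sum {n : ℕ} (z : E n) : ∑ i, z i • (EuclideanSpace.single i (1 : ℝ) : E n) = z := by
  have h := (EuclideanSpace.basisFun (Fin n) ℝ).sum_repr z
  simpa using h

theorem inner_single {n : ℕ} (z : E n) (i : Fin n) :
    (inner ℝ z (EuclideanSpace.single i (1 : ℝ)) : ℝ) = z i := by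
  rw [EuclideanSpace.inner_single_right]
  simp

/-- the moment identity for functions which are homogeneous of degree two -/
theorem hom_two (h1 : PLBasic) {n : ℕ} {g : E n → ℝ} (hg : PL g)
    (hhom : ∀ (t : ℝ) (z : E n), g (t • z) = t ^ 2 * g z) :
    Integrable g (gam n) ∧ Integrable (fun z => ‖z‖ ^ 2 * g z) (gam n) ∧
    ∫ z, ‖z‖ ^ 2 * g z ∂(gam n) = (n + 2) * ∫ z, g z ∂(gam n) := by
  obtain ⟨f1, f2, f3, -, f5, f6, f7⟩ := h1 n
  obtain ⟨gc, gb, gd', -, gpb, gm, -⟩ := f1 g hg
  have hPBn : PB (fun x : E n => ‖x‖) := ⟨1, 1, by norm_num, fun x => by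
    rw [abs_of_nonneg (norm_nonneg x), pow_one]
    linarith [norm_nonneg x]⟩
  have gint : Integrable g (gam n) := f6 g gc gb
  have g2 : Integrable (fun z => ‖z‖ ^ 2 * g z) (gam n) := by
    refine f6 _ (by fun_prop) ?_
    have e1 := (f3 _ _ hPBn hPBn).2
    have e2 := (f3 _ _ e1 gb).2
    have e3 : (fun x : E n => ‖x‖ * ‖x‖ * g x) = fun z => ‖z‖ ^ 2 * g z := by
      funext x
      ring
    rw [e3] at e2
    exact e2
  refine ⟨gint, g2, ?_⟩
  -- the coordinates
  have key : ∀ i : Fin n, ∫ z, z i ^ 2 * g z ∂(gam n) =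
      (∫ z, fderiv ℝ g z (z i • EuclideanSpace.single i (1 : ℝ)) ∂(gam n)) +
        ∫ z, g z ∂(gam n) := by
    intro i
    set v : E n := EuclideanSpace.single i (1 : ℝ) with hv
    have hPLi : PL (fun x : E n => (inner ℝ v x : ℝ)) := f5 v
    have hh := (f2 g _ hg hPLi).2.2
    have hI := (f1 _ hh).2.2.2.2.2.2 v
    have hPBi := (f1 _ hPLi).2.1
    have e1 : ∀ z : E n, g z * (inner ℝ v z : ℝ) * (inner ℝ z v : ℝ) = z i ^ 2 * g z := by
      intro z
      rw [real_inner_comm z v, hv, inner_single]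
      ring
    simp only [e1] at hI
    rw [hI]
    have e2 : ∀ᵐ z ∂(gam n), fderiv ℝ (fun x : E n => g x * (inner ℝ v x : ℝ)) z v =
        fderiv ℝ g z (z i • v) + g z := by
      filter_upwards [gd'] with z hz
      have d1 : HasFDerivAt (fun x : E n => (inner ℝ v x : ℝ)) (innerSL ℝ v) z :=
        (innerSL ℝ v).hasFDerivAt
      have d2 : fderiv ℝ (fun x : E n => g x * (inner ℝ v x : ℝ)) z =
          g z • (innerSL ℝ v) + (inner ℝ v z : ℝ) • fderiv ℝ g z :=
        (hz.hasFDerivAt.mul d1).fderiv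
      rw [d2]
      simp only [add_apply, smul_apply, smul_eq_mul,
        innerSL_apply_apply, map_smul]
      have e3 : (inner ℝ v v : ℝ) = 1 := by
        rw [real_inner_self_eq_norm_sq, hv]
        simp
      have e4 : (inner ℝ v z : ℝ) = z i := by
        rw [real_inner_comm, hv, inner_single]
      rw [e3, e4]
      ring
    rw [integral_congr_ae e2, integral_add _ gint]
    refine f7 _ ?_ ?_
    · have m1 : Measurable fun z : E n => fderiv ℝ g z v :=
        (ContinuousLinearMap.measurable_apply v).comp gm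
      have m2 : Measurable fun z : E n => z i := by fun_prop
      have m3 : (fun z : E n => fderiv ℝ g z (z i • v)) = fun z => z i * fderiv ℝ g z v := by
        funext z
        rw [map_smul, smul_eq_mul]
      rw [m3]
      exact m2.mul m1
    · obtain ⟨C, m, hC, hCm⟩ := gpb
      refine ⟨C, m + 1, hC, fun x => ?_⟩
      have e3 : |fderiv ℝ g x (x i • v)| ≤ ‖fderiv ℝ g x‖ * ‖x i • v‖ :=
        (fderiv ℝ g x).le_opNorm _
      have e4 : ‖x i • v‖ ≤ 1 + ‖x‖ := by
        rw [norm_smul, hv]
        have : ‖x i‖ ≤ ‖x‖ := PiLp.norm_apply_le x i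
        simp
        linarith [norm_nonneg x, this, Real.norm_eq_abs (x i)]
      have e5 := hCm x
      rw [abs_of_nonneg (norm_nonneg _)] at e5
      calc |fderiv ℝ g x (x i • v)| ≤ ‖fderiv ℝ g x‖ * ‖x i • v‖ := e3
        _ ≤ (C * (1 + ‖x‖) ^ m) * (1 + ‖x‖) := by gcongr
        _ = C * (1 + ‖x‖) ^ (m + 1) := by ring
  have hs1 : ∫ z, ‖z‖ ^ 2 * g z ∂(gam n) = ∑ i, ∫ z, z i ^ 2 * g z ∂(gam n) := by
    rw [← integral_finsetSum]
    · refine integral_congr_ae (Filter.Eventually.of_forall fun z => ?_)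
      simp only
      rw [EuclideanSpace.real_norm_sq_eq, Finset.sum_mul]
    · intro i _
      refine g2.mono (by fun_prop) (Filter.Eventually.of_forall fun z => ?_)
      rw [norm_mul, norm_mul, norm_pow, norm_pow, norm_norm]
      have : ‖z i‖ ≤ ‖z‖ := PiLp.norm_apply_le z i
      gcongr
  have hs2 : ∑ i, ∫ z, fderiv ℝ g z (z i • EuclideanSpace.single i (1 : ℝ)) ∂(gam n) =
      2 * ∫ z, g z ∂(gam n) := by
    rw [← integral_finsetSum, ← integral_const_mul]
    · refine integral_congr_ae ?_
      filter_upwards [gd'] with z hz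
      rw [← map_sum, basis_sum]
      -- Euler
      have d1 : HasDerivAt (fun t : ℝ => g (t • z)) (fderiv ℝ g z z) 1 := by
        have d2 : HasDerivAt (fun t : ℝ => t • z) z 1 := by
          simpa using (hasDerivAt_id (1 : ℝ)).smul_const z
        have d3 : HasFDerivAt g (fderiv ℝ g z) ((1 : ℝ) • z) := by
          rw [one_smul]
          exact hz.hasFDerivAt
        exact d3.comp_hasDerivAt (1 : ℝ) d2
      have d4 : HasDerivAt (fun t : ℝ => g (t • z)) (2 * g z) 1 := by
        have d5 : HasDerivAt (fun t : ℝ => t ^ 2 * g z) (2 * g z) 1 := by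
          have := (hasDerivAt_pow 2 (1 : ℝ)).mul_const (g z)
          simpa using this
        have d6 : (fun t : ℝ => g (t • z)) = fun t => t ^ 2 * g z := funext fun t => hhom t z
        rw [d6]
        exact d5
      exact d1.unique d4
    · intro i _
      refine f7 _ ?_ ?_
      · have m1 : Measurable fun z : E n => fderiv ℝ g z (EuclideanSpace.single i (1 : ℝ)) :=
          (ContinuousLinearMap.measurable_apply _).comp gm
        have m2 : Measurable fun z : E n => z i := by fun_prop
        have m3 : (fun z : E n => fderiv ℝ g z (z i • EuclideanSpace.single i (1 : ℝ))) =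
            fun z => z i * fderiv ℝ g z (EuclideanSpace.single i (1 : ℝ)) := by
          funext z
          rw [map_smul, smul_eq_mul]
        rw [m3]
        exact m2.mul m1
      · obtain ⟨C, m, hC, hCm⟩ := gpb
        refine ⟨C, m + 1, hC, fun x => ?_⟩
        have e3 : |fderiv ℝ g x (x i • EuclideanSpace.single i (1 : ℝ))| ≤
            ‖fderiv ℝ g x‖ * ‖x i • (EuclideanSpace.single i (1 : ℝ) : E n)‖ :=
          (fderiv ℝ g x).le_opNorm _
        have e4 : ‖x i • (EuclideanSpace.single i (1 : ℝ) : E n)‖ ≤ 1 + ‖x‖ := by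
          rw [norm_smul]
          have : ‖x i‖ ≤ ‖x‖ := PiLp.norm_apply_le x i
          simp
          linarith [norm_nonneg x, this, Real.norm_eq_abs (x i)]
        have e5 := hCm x
        rw [abs_of_nonneg (norm_nonneg _)] at e5
        calc |fderiv ℝ g x (x i • EuclideanSpace.single i (1 : ℝ))|
            ≤ ‖fderiv ℝ g x‖ * ‖x i • (EuclideanSpace.single i (1 : ℝ) : E n)‖ := e3
          _ ≤ (C * (1 + ‖x‖) ^ m) * (1 + ‖x‖) := by gcongr
          _ = C * (1 + ‖x‖) ^ (m + 1) := by ring
  rw [hs1, Finset.sum_congr rfl fun i _ => key i, Finset.sum_add_distrib, hs2, Finset.sum_const,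
    Finset.card_univ, Fintype.card_fin, nsmul_eq_mul]
  ring

theorem main (h1 : PLBasic) (h2 : CcBasic) : CcMom := by
  intro n φ hφ
  obtain ⟨f1, f2, f3, -, f5, f6, f7⟩ := h1 n
  obtain ⟨c1, c2, c3, -, -, -, -, -, -⟩ := h2 n φ hφ
  have hP2 : PL (fun z => φ z ^ 2) := by
    have := (f2 φ φ c1 c1).2.2
    have e : (fun x => φ x * φ x) = fun z => φ z ^ 2 := by
      funext x
      ring
    rwa [e] at this
  have hh2 : ∀ (t : ℝ) (z : E n), φ (t • z) ^ 2 = t ^ 2 * φ z ^ 2 := by
    intro t z
    rw [hφ.hom]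
    ring
  obtain ⟨i1, i2, i3⟩ := hom_two h1 hP2 hh2
  -- integrability of the entries
  have hent : ∀ i j : Fin n, Integrable (fun z : E n =>
      (z i * z j - if i = j then 1 else 0) * φ z ^ 2) (gam n) := by
    intro i j
    have hdom := i2.add i1
    refine hdom.mono (by fun_prop) (Filter.Eventually.of_forall fun z => ?_)
    have e1 : |z i * z j - if i = j then 1 else 0| ≤ ‖z‖ ^ 2 + 1 := by
      have a1 : |z i| ≤ ‖z‖ := PiLp.norm_apply_le z i
      have a2 : |z j| ≤ ‖z‖ := PiLp.norm_apply_le z j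
      have a3 : |z i * z j| ≤ ‖z‖ ^ 2 := by
        rw [abs_mul, sq]
        exact mul_le_mul a1 a2 (abs_nonneg _) (norm_nonneg _)
      have a4 : |(if i = j then (1 : ℝ) else 0)| ≤ 1 := by split_ifs <;> simp
      exact (abs_sub _ _).trans (add_le_add a3 a4)
    have e2 : 0 ≤ φ z ^ 2 := sq_nonneg _
    rw [Real.norm_eq_abs, abs_mul, abs_of_nonneg e2, Real.norm_eq_abs]
    have e3 : |((fun z : E n => ‖z‖ ^ 2 * φ z ^ 2) + fun z => φ z ^ 2) z| =
        (‖z‖ ^ 2 + 1) * φ z ^ 2 := by
      rw [Pi.add_apply, abs_of_nonneg (by positivity)]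
      ring
    rw [e3]
    gcongr
  refine ⟨?_, ?_, ?_, ?_⟩
  · unfold Matrix.trace Xm sv
    simp only [Matrix.diag_apply, if_true]
    rw [← Finset.mul_sum, ← integral_finsetSum _ fun i _ => by simpa using hent i i]
    have e1 : ∀ z : E n, ∑ i : Fin n, (z i * z i - 1) * φ z ^ 2 =
        ‖z‖ ^ 2 * φ z ^ 2 - n * φ z ^ 2 := by
      intro z
      rw [← Finset.sum_mul, Finset.sum_sub_distrib, EuclideanSpace.real_norm_sq_eq]
      simp only [Finset.sum_const, Finset.card_univ, Fintype.card_fin, nsmul_eq_mul, mul_one]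
      have : ∑ i : Fin n, z i * z i = ∑ i : Fin n, z i ^ 2 :=
        Finset.sum_congr rfl fun i _ => by ring
      rw [this]
      ring
    simp only [e1]
    rw [integral_sub i2 (i1.const_mul _), integral_const_mul, i3]
    ring
  · apply Matrix.IsSymm.ext
    intro i j
    unfold Xm
    congr 1
    refine integral_congr_ae (Filter.Eventually.of_forall fun z => ?_)
    simp only [eq_comm]
    ring
  · intro u v
    unfold qX Xm
    have e1 : ∀ z : E n, ((inner ℝ u z : ℝ) * inner ℝ v z - inner ℝ u v) * φ z ^ 2 =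
        ∑ i, ∑ j, u i * v j * ((z i * z j - if i = j then 1 else 0) * φ z ^ 2) := by
      intro z
      have a1 : (inner ℝ u z : ℝ) = ∑ i, u i * z i := by
        rw [PiLp.inner_apply]
        exact Finset.sum_congr rfl fun i _ => by simp [mul_comm]
      have a2 : (inner ℝ v z : ℝ) = ∑ i, v i * z i := by
        rw [PiLp.inner_apply]
        exact Finset.sum_congr rfl fun i _ => by simp [mul_comm]
      have a3 : (inner ℝ u v : ℝ) = ∑ i, ∑ j, u i * v j * (if i = j then 1 else 0) := by
        rw [PiLp.inner_apply]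
        refine Finset.sum_congr rfl fun i _ => ?_
        simp [mul_comm]
      rw [a1, a2, a3, Finset.sum_mul_sum, ← Finset.sum_sub_distrib, Finset.sum_mul]
      refine Finset.sum_congr rfl fun i _ => ?_
      rw [← Finset.sum_sub_distrib, Finset.sum_mul]
      refine Finset.sum_congr rfl fun j _ => ?_
      ring
    simp only [e1]
    rw [integral_finsetSum _ fun i _ => integrable_finsetSum _ fun j _ =>
      (hent i j).const_mul _, Finset.mul_sum]
    refine Finset.sum_congr rfl fun i _ => ?_
    rw [integral_finsetSum _ fun j _ => (hent i j).const_mul _, Finset.mul_sum]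
    refine Finset.sum_congr rfl fun j _ => ?_
    rw [integral_const_mul]
    ring
  · intro u
    have hPu : PL (fun z => φ z * inner ℝ u z) := (f2 φ _ c1 (f5 u)).2.2
    refine (hom_two h1 hPu fun t z => ?_).2.2
    rw [hφ.hom, real_inner_smul_right]
    ring

end Pool.Agent.Q53.FC.CM
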