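import Pool.Agent.Q188.FC.StmC

/-!
# Project FC (helper188), job BI: the area of the hemisphere in the Klein parametrisation
-/

set_option autoImplicit false

open MeasureTheory Set Metric

namespace Pool.Agent.Q53.FC.BI

open Pool.Agent.W716.FV (E)
open Pool.Agent.Q188.FC
open ProbabilityTheory (beta beta_pos lintegral_betaPDF lintegral_betaPDF_eq_one)

/-- the radial profile -/
noncomputable def hh (r : ℝ) : ℝ := if r < 1 then (√(1 - r ^ 2))⁻¹ else 0

theorem hh_nonneg (r : ℝ) : 0 ≤ hh r := by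
  unfold hh
  split_ifs
  · positivity
  · exact le_rfl

theorem hh_meas : Measurable hh := by
  unfold hh
  exact Measurable.ite measurableSet_Iio (by fun_prop) measurable_const

theorem sq_image : (fun r : ℝ => r ^ 2) '' Ioo 0 1 = Ioo 0 1 := by
  ext x
  constructor
  · rintro ⟨r, ⟨h0, h1⟩, rfl⟩
    exact ⟨by positivity, by nlinarith⟩
  · rintro ⟨h0, h1⟩
    refine ⟨√x, ⟨Real.sqrt_pos.2 h0, ?_⟩, Real.sq_sqrt h0.le⟩
    rw [← Real.sqrt_one]
    exact Real.sqrt_lt_sqrt h0.le h1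

/-- the radial integral -/
theorem radial (n : ℕ) (hn : 0 < n) :
    ∫⁻ r in Ioi (0 : ℝ), ENNReal.ofReal (r ^ (n - 1) * hh r) =
      ENNReal.ofReal (beta ((n : ℝ) / 2) (1 / 2) / 2) := by
  have hnr : (0 : ℝ) < n := by exact_mod_cast hn
  set β := beta ((n : ℝ) / 2) (1 / 2) with hβ
  have hβ0 : 0 < β := beta_pos (by positivity) (by norm_num)
  have h1 : ∫⁻ (x : ℝ) in Ioo 0 1, ENNReal.ofReal
      (1 / β * x ^ ((n : ℝ) / 2 - 1) * (1 - x) ^ ((1 : ℝ) / 2 - 1)) = 1 := by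
    rw [← lintegral_betaPDF, lintegral_betaPDF_eq_one (by positivity) (by norm_num)]
  have h2 := lintegral_image_eq_lintegral_abs_deriv_mul (s := Ioo (0 : ℝ) 1)
    (f := fun r : ℝ => r ^ 2) (f' := fun r => 2 * r) measurableSet_Ioo
    (fun x _ => by
      have := (hasDerivAt_pow 2 x).hasDerivWithinAt (s := Ioo (0 : ℝ) 1)
      simpa using this)
    (fun x hx y hy hxy => by
      have h3 : x ^ 2 = y ^ 2 := hxy
      nlinarith [hx.1, hy.1])
    (fun x => ENNReal.ofReal (1 / β * x ^ ((n : ℝ) / 2 - 1) * (1 - x) ^ ((1 : ℝ) / 2 - 1)))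
  rw [sq_image, h1] at h2
  have h3 : ∀ r ∈ Ioo (0 : ℝ) 1, ENNReal.ofReal |2 * r| * ENNReal.ofReal
      (1 / β * (r ^ 2) ^ ((n : ℝ) / 2 - 1) * (1 - r ^ 2) ^ ((1 : ℝ) / 2 - 1)) =
      ENNReal.ofReal (2 / β) * ENNReal.ofReal (r ^ (n - 1) * hh r) := by
    rintro r ⟨h0, h1⟩
    rw [← ENNReal.ofReal_mul (abs_nonneg _), ← ENNReal.ofReal_mul (by positivity)]
    congr 1
    have hr1 : 0 < 1 - r ^ 2 := by nlinarith
    rw [abs_of_pos (by positivity), hh, if_pos h1]
    have e1 : (r ^ 2) ^ ((n : ℝ) / 2 - 1) * r = r ^ (n - 1) := by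
      rw [← Real.rpow_natCast r 2, ← Real.rpow_mul h0.le]
      nth_rewrite 2 [← Real.rpow_one r]
      rw [← Real.rpow_add h0, ← Real.rpow_natCast]
      congr 1
      rw [Nat.cast_sub hn]
      push_cast
      ring
    have e2 : (1 - r ^ 2) ^ ((1 : ℝ) / 2 - 1) = (√(1 - r ^ 2))⁻¹ := by
      rw [Real.sqrt_eq_rpow, ← Real.rpow_neg hr1.le]
      congr 1
      norm_num
    rw [e2, ← e1]
    ring
  rw [setLIntegral_congr_fun measurableSet_Ioo h3, lintegral_const_mul' _ _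
    ENNReal.ofReal_ne_top] at h2
  have h4 : ∫⁻ r in Ioo (0 : ℝ) 1, ENNReal.ofReal (r ^ (n - 1) * hh r) =
      ENNReal.ofReal (β / 2) := by
    have h5 : ENNReal.ofReal (β / 2) * 1 = ENNReal.ofReal (β / 2) * (ENNReal.ofReal (2 / β) *
        ∫⁻ r in Ioo (0 : ℝ) 1, ENNReal.ofReal (r ^ (n - 1) * hh r)) := by rw [← h2]
    rw [mul_one, ← mul_assoc, ← ENNReal.ofReal_mul (by positivity)] at h5
    have h6 : β / 2 * (2 / β) = 1 := by field_simp
    rw [h6, ENNReal.ofReal_one, one_mul] at h5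
    exact h5.symm
  rw [← h4]
  have h7 : Ioi (0 : ℝ) = Ioo 0 1 ∪ Ici 1 := by
    rw [Ioo_union_Ici_eq_Ioi one_pos]
  rw [h7, lintegral_union measurableSet_Ici]
  · have h8 : ∫⁻ r in Ici (1 : ℝ), ENNReal.ofReal (r ^ (n - 1) * hh r) = 0 := by
      have h9 : ∀ r ∈ Ici (1 : ℝ), ENNReal.ofReal (r ^ (n - 1) * hh r) = 0 := by
        intro r hr
        rw [hh, if_neg (not_lt.2 hr), mul_zero, ENNReal.ofReal_zero]
      rw [setLIntegral_congr_fun measurableSet_Ici h9, lintegral_zero]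
    rw [h8, add_zero]
  · rw [Set.disjoint_left]
    rintro x ⟨_, h8⟩ h9
    exact absurd h8 (not_lt.2 h9)

theorem main : BallInt := by
  intro n hn
  have hnr : (0 : ℝ) < n := by exact_mod_cast hn
  have hne0 : Nonempty (Fin n) := ⟨⟨0, hn⟩⟩
  have hne : Nontrivial (E n) := inferInstance
  have hdim : Module.finrank ℝ (E n) = n := by simp
  have hrad := radial n hn
  set β := beta ((n : ℝ) / 2) (1 / 2) with hβ
  have hβ0 : 0 < β := beta_pos (by positivity) (by norm_num)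
  have hnn : ∀ r ∈ Ioi (0 : ℝ), 0 ≤ r ^ (n - 1) * hh r := fun r hr =>
    mul_nonneg (pow_nonneg (le_of_lt hr) _) (hh_nonneg r)
  have hnn' : 0 ≤ᵐ[volume.restrict (Ioi (0 : ℝ))] fun r => r ^ (n - 1) * hh r :=
    (ae_restrict_iff' measurableSet_Ioi).2 (Filter.Eventually.of_forall hnn)
  have hm1 : Measurable fun r : ℝ => r ^ (n - 1) * hh r := by
    have := hh_meas
    fun_prop
  have hint : IntegrableOn (fun r : ℝ => r ^ (n - 1) * hh r) (Ioi 0) := by
    refine ⟨hm1.aestronglyMeasurable, ?_⟩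
    rw [hasFiniteIntegral_iff_ofReal hnn', hrad]
    exact ENNReal.ofReal_lt_top
  have hI : ∫ r in Ioi (0 : ℝ), r ^ (n - 1) * hh r = β / 2 := by
    rw [integral_eq_lintegral_of_nonneg_ae hnn' hm1.aestronglyMeasurable, hrad,
      ENNReal.toReal_ofReal (by positivity)]
  have hint2 : Integrable (fun p : E n => hh ‖p‖) := by
    refine (integrable_fun_norm_addHaar (volume : Measure (E n)) (f := hh)).2 ?_
    rw [hdim]
    exact hint
  have hpol := integral_fun_norm_addHaar (volume : Measure (E n)) hh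
  rw [hdim] at hpol
  simp only [smul_eq_mul] at hpol
  rw [hI] at hpol
  have hL : ∫⁻ p in ball (0 : E n) 1, ENNReal.ofReal (lf p) =
      ∫⁻ p : E n, ENNReal.ofReal (hh ‖p‖) := by
    rw [← lintegral_indicator measurableSet_ball]
    refine lintegral_congr fun p => ?_
    by_cases hp : ‖p‖ < 1
    · rw [indicator_of_mem (by rwa [mem_ball_zero_iff]), hh, if_pos hp]
      rfl
    · rw [indicator_of_notMem (by rwa [mem_ball_zero_iff]), hh, if_neg hp, ENNReal.ofReal_zero]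
  rw [hL, ← ofReal_integral_eq_lintegral_ofReal hint2
    (Filter.Eventually.of_forall fun p => hh_nonneg _), hpol, Measure.toSphere_apply_univ,
    EuclideanSpace.volume_ball]
  have hv : (volume : Measure (E n)).real (ball 0 1) =
      √Real.pi ^ n / Real.Gamma ((n : ℝ) / 2 + 1) := by
    rw [Measure.real, EuclideanSpace.volume_ball, Fintype.card_fin, ENNReal.ofReal_one, one_pow,
      one_mul, ENNReal.toReal_ofReal]
    have := Real.Gamma_pos_of_pos (show (0 : ℝ) < (n : ℝ) / 2 + 1 by positivity)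
    positivity
  rw [hv]
  have hd2 : Module.finrank ℝ (EuclideanSpace ℝ (Fin (n + 1))) = n + 1 := by simp
  rw [hd2, Fintype.card_fin, ENNReal.ofReal_one, one_pow, one_mul, ENNReal.div_eq_inv_mul]
  have h2 : (2 : ENNReal)⁻¹ = ENNReal.ofReal (1 / 2) := by
    rw [one_div, ENNReal.ofReal_inv_of_pos two_pos, ENNReal.ofReal_ofNat]
  rw [h2, ← ENNReal.ofReal_natCast (n + 1), ← ENNReal.ofReal_mul (by positivity),
    ← ENNReal.ofReal_mul (by norm_num)]
  congr 1
  have g0 : 0 < Real.Gamma ((n : ℝ) / 2) := Real.Gamma_pos_of_pos (by positivity)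
  have g1 : 0 < Real.Gamma ((n : ℝ) / 2 + 1 / 2) := Real.Gamma_pos_of_pos (by positivity)
  have g2 : Real.Gamma ((n : ℝ) / 2 + 1) = (n : ℝ) / 2 * Real.Gamma ((n : ℝ) / 2) :=
    Real.Gamma_add_one (by positivity)
  have g3 : Real.Gamma (((n + 1 : ℕ) : ℝ) / 2 + 1) =
      ((n : ℝ) + 1) / 2 * Real.Gamma ((n : ℝ) / 2 + 1 / 2) := by
    rw [Real.Gamma_add_one (by positivity)]
    push_cast
    congr 2
    ring
  rw [g2, g3, hβ, beta, Real.Gamma_one_half_eq, nsmul_eq_mul]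
  have hpi : 0 < √Real.pi := Real.sqrt_pos.2 Real.pi_pos
  push_cast
  field_simp
  ring

end Pool.Agent.Q53.FC.BI
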