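import Pool.Agent.Q188.FC.StmC

/-!
# Project FC (helper188), job CL: the centre is locally Lipschitz
-/

set_option autoImplicit false

open MeasureTheory Set Metric

namespace Pool.Agent.Q53.FC.CL

open Pool.Agent.W716.FV (E)
open Pool.Agent.Q188.FC

theorem main (h1 : LocZ) : CenterLip := by
  intro n U φ hU hφ s f hsU hf c₀ hc₀
  obtain ⟨hcc, hloc⟩ := hφ
  obtain ⟨r₀, K₀, hr₀, hK₀, hz⟩ := h1 n (φ c₀) (hcc c₀) (f c₀) (hf c₀ hc₀).1 (hf c₀ hc₀).2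
  obtain ⟨r₁, K₁, hr₁, hK₁, hball, hlip⟩ := hloc c₀ (hsU hc₀)
  refine ⟨min r₁ (r₀ / (K₁ + 1)), K₀ * K₁, lt_min hr₁ (by positivity), ?_⟩
  have hcl : ∀ c ∈ ball c₀ (min r₁ (r₀ / (K₁ + 1))), c ∈ ball c₀ r₁ ∧
      ∀ y, |φ c y - φ c₀ y| ≤ r₀ * ‖y‖ := by
    intro c hc
    have hc1 : c ∈ ball c₀ r₁ := ball_subset_ball (min_le_left _ _) hc
    refine ⟨hc1, fun y => (hlip c hc1 c₀ (mem_ball_self hr₁) y).trans ?_⟩
    have h2 : ‖c - c₀‖ < r₀ / (K₁ + 1) := by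
      have := mem_ball.1 hc
      rw [dist_eq_norm] at this
      exact lt_of_lt_of_le this (min_le_right _ _)
    have h3 : K₁ * ‖c - c₀‖ ≤ r₀ := by
      rw [lt_div_iff₀ (by positivity)] at h2
      nlinarith [norm_nonneg (c - c₀)]
    exact mul_le_mul_of_nonneg_right h3 (norm_nonneg y)
  rintro c ⟨hcs, hcb⟩ c' ⟨hcs', hcb'⟩
  obtain ⟨b1, b2⟩ := hcl c hcb
  obtain ⟨b1', b2'⟩ := hcl c' hcb'
  have h4 := hz (φ c) (φ c') (hcc c) (hcc c') b2 b2' (f c) (f c') (hf c hcs).1 (hf c' hcs').1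
    (hf c hcs).2 (hf c' hcs').2 (K₁ * ‖c - c'‖) (by positivity) (hlip c b1 c' b1')
  rw [mul_assoc]
  exact h4

end Pool.Agent.Q53.FC.CL
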