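import Pool.Agent.Q53.FC.CC

/-!
# Project FC (helper188), job MC: the main theorem
-/

set_option autoImplicit false

open MeasureTheory Set Metric InnerProductGeometry

namespace Pool.Agent.Q53.FC.MC

open Pool.Agent.W716.FV (E gam gd UU)
open Pool.Agent.H241R3.FV (Sph Fill Triang)
open Pool.Agent.Q188.FC

theorem main (h1 : ChartArea) (h2 : PhiChart) (h3 : PhiFacts) (h4 : CoverC) (h5 : BallInt)
    (h6 : HatLin) (h7 : GGHat) (h8 : LocZ) : MainC := by
  intro d hd M _ _ S hS hT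
  classical
  have := S.countable
  obtain ⟨p1, p2, p3⟩ := h3 (d + 1) (Nat.succ_pos d) M S.bd hS
  -- the centres in the charts
  set φ : S.ι → E (d + 1) → E (d + 1) → ℝ := fun i c => FF S.bd ((S.chart i).map c) with hφ
  set s : S.ι → Set (E (d + 1)) := fun i =>
    {c | c ∈ (S.chart i).D ∧ ∃ p : E (d + 1), ‖p‖ < 1 ∧ GG p (φ i c) = 0} with hs
  set f : S.ι → E (d + 1) → E (d + 1) := fun i c =>
    if h : ∃ p : E (d + 1), ‖p‖ < 1 ∧ GG p (φ i c) = 0 then h.choose else 0 with hf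
  have hfs : ∀ i, ∀ c ∈ s i, ‖f i c‖ < 1 ∧ GG (f i c) (φ i c) = 0 := by
    intro i c hc
    have h := hc.2
    rw [hf]
    simp only
    rw [dif_pos h]
    exact h.choose_spec
  have huniq : ∀ ψ : E (d + 1) → ℝ, Cc ψ → ∀ p p' : E (d + 1), ‖p‖ < 1 → ‖p'‖ < 1 →
      GG p ψ = 0 → GG p' ψ = 0 → p = p' := by
    intro ψ hψ p p' hp hp' h0 h0'
    obtain ⟨r, K, hr, hK, hz⟩ := h8 (d + 1) ψ hψ p hp h0
    have hb : ∀ y, |ψ y - ψ y| ≤ r * ‖y‖ := by
      intro y
      rw [sub_self, abs_zero]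
      positivity
    have h9 := hz ψ ψ hψ hψ hb hb p p' hp hp' h0 h0' 0 le_rfl (fun y => by simp)
    rw [mul_zero] at h9
    have h10 : ‖p - p'‖ = 0 := le_antisymm h9 (norm_nonneg _)
    exact sub_eq_zero.1 (norm_eq_zero.1 h10)
  have hcov : ball (0 : E (d + 1)) 1 ⊆ ⋃ i, f i '' s i := by
    intro p hp
    rw [mem_ball_zero_iff] at hp
    obtain ⟨q, hq⟩ := h4 d hd M S hS hT p hp
    rcases S.cover q with ⟨x, rfl⟩ | ⟨i, c, hc, rfl⟩
    · exact absurd hq (Pool.Agent.Q53.FC.CC.bdry h3 h6 h7 (Nat.succ_pos d) S.bd hS p hp x).2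
    · have hcs : c ∈ s i := ⟨hc, p, hp, hq⟩
      obtain ⟨g1, g2⟩ := hfs i c hcs
      refine mem_iUnion.2 ⟨i, c, hcs, ?_⟩
      exact huniq _ (p1 _) _ _ g1 hp g2 hq
  have hchart : ∀ i, ∫⁻ p in f i '' s i, ENNReal.ofReal (lf p) ≤
      ENNReal.ofReal (100 / 81) *
        ∫⁻ c in (S.chart i).D, ENNReal.ofReal √((S.chart i).G c).det := by
    intro i
    obtain ⟨q1, q2⟩ := h2 (d + 1) (Nat.succ_pos d) M S.bd hS (S.chart i)
    exact h1 (d + 1) (Nat.succ_pos d) (S.chart i).U (φ i) (S.chart i).isOpen_U q1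
      (S.chart i).G (S.chart i).pos_G q2 (S.chart i).D (S.chart i).meas_D (S.chart i).D_sub
      (s i) (f i) rfl (hfs i)
  have hmain : (volume : Measure (EuclideanSpace ℝ (Fin (d + 2)))).toSphere univ / 2 ≤
      ENNReal.ofReal (100 / 81) * S.vol := by
    calc (volume : Measure (EuclideanSpace ℝ (Fin (d + 2)))).toSphere univ / 2
        = ∫⁻ p in ball (0 : E (d + 1)) 1, ENNReal.ofReal (lf p) :=
          (h5 (d + 1) (Nat.succ_pos d)).symm
      _ ≤ ∫⁻ p in ⋃ i, f i '' s i, ENNReal.ofReal (lf p) := lintegral_mono_set hcov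
      _ ≤ ∑' i, ∫⁻ p in f i '' s i, ENNReal.ofReal (lf p) := lintegral_iUnion_le _ _
      _ ≤ ∑' i, ENNReal.ofReal (100 / 81) *
          ∫⁻ c in (S.chart i).D, ENNReal.ofReal √((S.chart i).G c).det :=
          ENNReal.tsum_le_tsum hchart
      _ = ENNReal.ofReal (100 / 81) * S.vol := by
          rw [ENNReal.tsum_mul_left]
          rfl
  calc ENNReal.ofReal (81 / 100) *
      ((volume : Measure (EuclideanSpace ℝ (Fin (d + 2)))).toSphere univ / 2)
      ≤ ENNReal.ofReal (81 / 100) * (ENNReal.ofReal (100 / 81) * S.vol) := by gcongr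
    _ = S.vol := by
        rw [← mul_assoc, ← ENNReal.ofReal_mul (by norm_num)]
        norm_num

end Pool.Agent.Q53.FC.MC
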