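import Pool.Agent.Q188.FC.StmC

/-!
# Project FC (helper188), job ME: measurability
-/

set_option autoImplicit false

open MeasureTheory Set Metric Filter Topology

namespace Pool.Agent.Q53.FC.ME

open Pool.Agent.W716.FV (E)
open Pool.Agent.Q188.FC

theorem main (h1 : GGLip) (h2 : GGDer) : MeasS := by
  intro n U φ hU hφ D hD hDU
  obtain ⟨hcc, hloc⟩ := hφ
  set A : ℕ → Set (E n) := fun k =>
    {c | ∃ p : E n, ‖p‖ ≤ 1 - 1 / ((k : ℝ) + 1) ∧ GG p (φ c) = 0} with hA
  have hset : {c | c ∈ D ∧ ∃ p : E n, ‖p‖ < 1 ∧ GG p (φ c) = 0} =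
      ⋃ k, D ∩ closure (A k ∩ U) := by
    ext c
    rw [mem_iUnion]
    constructor
    · rintro ⟨hcD, p, hp, hz⟩
      obtain ⟨k, hk⟩ := exists_nat_one_div_lt (show 0 < 1 - ‖p‖ by linarith)
      exact ⟨k, hcD, subset_closure ⟨⟨p, by linarith, hz⟩, hDU hcD⟩⟩
    · rintro ⟨k, hcD, hcl⟩
      refine ⟨hcD, ?_⟩
      obtain ⟨x, hx, hxc⟩ := mem_closure_iff_seq_limit.1 hcl
      choose p hp hz using fun j => (hx j).1
      set ρ : ℝ := 1 - 1 / ((k : ℝ) + 1) with hρ
      have hρ1 : ρ < 1 := by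
        rw [hρ]
        have : 0 < 1 / ((k : ℝ) + 1) := by positivity
        linarith
      obtain ⟨q, hq, θ, hθ, hlim⟩ := (isCompact_closedBall (0 : E n) ρ).tendsto_subseq
        (x := p) (fun j => mem_closedBall_zero_iff.2 (hp j))
      rw [mem_closedBall_zero_iff] at hq
      refine ⟨q, by linarith, ?_⟩
      obtain ⟨K, hK, hKl⟩ := h1 n ρ hρ1
      obtain ⟨r, K', hr, hK', hb, hl⟩ := hloc c (hDU hcD)
      obtain ⟨L, hL, -⟩ := h2 n (φ c) (hcc c) q (by linarith)
      have t1 : Tendsto (fun j => GG (p (θ j)) (φ c)) atTop (𝓝 (GG q (φ c))) :=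
        hL.continuousAt.tendsto.comp hlim
      have t2 : Tendsto (fun j => GG (p (θ j)) (φ c)) atTop (𝓝 0) := by
        have hxθ : Tendsto (fun j => x (θ j)) atTop (𝓝 c) := hxc.comp hθ.tendsto_atTop
        have t3 : Tendsto (fun j => K * (K' * ‖c - x (θ j)‖)) atTop (𝓝 0) := by
          have t4 : Tendsto (fun j => c - x (θ j)) atTop (𝓝 (c - c)) :=
            tendsto_const_nhds.sub hxθ
          rw [sub_self] at t4
          have t5 := t4.norm
          rw [norm_zero] at t5
          have t6 := (t5.const_mul K').const_mul K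
          simpa using t6
        refine squeeze_zero_norm' ?_ t3
        have hev : ∀ᶠ j in atTop, x (θ j) ∈ ball c r := hxθ.eventually (ball_mem_nhds c hr)
        filter_upwards [hev] with j hj
        have h3 := hKl (p (θ j)) (hp (θ j)) (φ c) (φ (x (θ j))) (hcc _) (hcc _)
          (K' * ‖c - x (θ j)‖) (by positivity) (hl c (mem_ball_self hr) _ hj)
        rw [hz (θ j), sub_zero] at h3
        exact h3
      exact tendsto_nhds_unique t1 t2
  rw [hset]
  exact MeasurableSet.iUnion fun k => hD.inter isClosed_closure.measurableSet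

end Pool.Agent.Q53.FC.ME
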