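import Pool.Agent.Q188.FC.StmC
import Pool.Agent.W18.FV.UF

/-!
# Project FC (helper188), job PF: the functions `FF`
-/

set_option autoImplicit false

open MeasureTheory Set Metric

namespace Pool.Agent.Q53.FC.PF

open Pool.Agent.W716.FV (E UU Good)
open Pool.Agent.Q188.FC

theorem main : PhiFacts := by
  intro n hn M _ bd hbd
  obtain ⟨hG, hb, hL, -, -⟩ := Pool.Agent.W18.FV.UF.main n hn M bd hbd
  refine ⟨fun q => ⟨fun x y => ?_, fun t x => ?_⟩, fun x y => ?_, fun q q' y => ?_⟩
  · have h1 := (hG q).lip x y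
    have h2 := (hG q).lip (-x) (-y)
    have h3 : ‖-x - -y‖ = ‖x - y‖ := by
      rw [← norm_neg]
      congr 1
      abel
    rw [h3] at h2
    unfold FF
    rw [abs_le] at h1 h2 ⊢
    constructor <;> linarith [h1.1, h1.2, h2.1, h2.2]
  · unfold FF
    rcases le_total 0 t with ht | ht
    · have h1 := (hG q).hom t x ht
      have h2 := (hG q).hom t (-x) ht
      rw [smul_neg] at h2
      rw [h1, h2]
      ring
    · have h1 := (hG q).hom (-t) x (by linarith)
      have h2 := (hG q).hom (-t) (-x) (by linarith)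
      rw [neg_smul] at h1
      rw [neg_smul, smul_neg, neg_neg] at h2
      rw [h1, h2]
      ring
  · unfold FF
    rw [hb, hb, inner_neg_left]
    ring
  · have h1 := hL q q' y
    have h2 := hL q q' (-y)
    rw [norm_neg] at h2
    unfold FF
    rw [abs_le] at h1 h2 ⊢
    constructor <;> linarith [h1.1, h1.2, h2.1, h2.2]

end Pool.Agent.Q53.FC.PF
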