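import Pool.Agent.Q188.FC.StmC

/-!
# Project FC (helper188), job WA: weighted area inequality
-/

set_option autoImplicit false

open MeasureTheory Set

namespace Pool.Agent.Q53.FC.WA

open Pool.Agent.W716.FV (E)
open Pool.Agent.Q188.FC

theorem main : WArea := by
  intro n s f f' hs hf w hw
  have hfc : ContinuousOn f s := fun x hx => (hf x hx).continuousWithinAt
  have hfm : AEMeasurable f (volume.restrict s) := hfc.aemeasurable hs
  set J : E n → ENNReal := fun x => ENNReal.ofReal |(f' x).det| with hJ
  have hJm : AEMeasurable J (volume.restrict s) :=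
    aemeasurable_ofReal_abs_det_fderivWithin volume hs hf
  -- the preimages are measurable
  have hpre : ∀ A : Set (E n), MeasurableSet A → MeasurableSet (s ∩ f ⁻¹' A) := by
    intro A hA
    have h1 : MeasurableSet (s.domRestrict f ⁻¹' A) := (continuousOn_iff_continuous_domRestrict.1
      hfc).measurable hA
    have h2 : s ∩ f ⁻¹' A = (Subtype.val : s → E n) '' (s.domRestrict f ⁻¹' A) := by
      ext x
      constructor
      · rintro ⟨h3, h4⟩
        exact ⟨⟨x, h3⟩, h4, rfl⟩
      · rintro ⟨⟨y, hy⟩, h3, rfl⟩
        exact ⟨hy, h3⟩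
    rw [h2]
    exact hs.subtype_image h1
  have key : (volume : Measure (E n)).restrict (f '' s) ≤
      Measure.map f ((volume.restrict s).withDensity J) := by
    have hfm' : AEMeasurable f ((volume.restrict s).withDensity J) :=
      hfm.mono_ac (withDensity_absolutelyContinuous _ _)
    rw [Measure.le_iff]
    intro A hA
    rw [Measure.restrict_apply hA, Measure.map_apply_of_aemeasurable hfm' hA]
    have h1 : A ∩ f '' s = f '' (s ∩ f ⁻¹' A) := by
      ext y
      constructor
      · rintro ⟨h2, x, hx, rfl⟩
        exact ⟨x, ⟨hx, h2⟩, rfl⟩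
      · rintro ⟨x, ⟨hx, h2⟩, rfl⟩
        exact ⟨h2, x, hx, rfl⟩
    rw [h1]
    have h2 : volume (f '' (s ∩ f ⁻¹' A)) ≤ ∫⁻ x in s ∩ f ⁻¹' A, J x :=
      addHaar_image_le_lintegral_abs_det_fderiv volume (hpre A hA)
        (fun x hx => (hf x hx.1).mono inter_subset_left)
    refine h2.trans ?_
    have h3 : ∫⁻ x in s ∩ f ⁻¹' A, J x = ∫⁻ x in s ∩ f ⁻¹' A, J x ∂(volume.restrict s) := by
      rw [Measure.restrict_restrict (hpre A hA)]
      congr 2
      ext x
      simp only [mem_inter_iff, mem_preimage]
      tauto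
    rw [h3, ← withDensity_apply _ (hpre A hA)]
    exact measure_mono inter_subset_right
  calc ∫⁻ y in f '' s, w y ≤ ∫⁻ y, w y ∂(Measure.map f ((volume.restrict s).withDensity J)) :=
        lintegral_mono' key le_rfl
    _ = ∫⁻ x, w (f x) ∂((volume.restrict s).withDensity J) :=
        lintegral_map' hw.aemeasurable (hfm.mono_ac (withDensity_absolutelyContinuous _ _))
    _ = ∫⁻ x in s, J x * w (f x) := by
        have h5 : AEMeasurable (fun x => w (f x)) (volume.restrict s) := hw.comp_aemeasurable hfm
        rw [lintegral_withDensity_eq_lintegral_mul₀ hJm h5]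
        rfl

end Pool.Agent.Q53.FC.WA
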