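import Pool.Agent.Q188.FC.StmC
import Pool.Agent.W933.FV.GM

/-!
# Project FC (helper188), job GH: the field in terms of the hat
-/

set_option autoImplicit false

open MeasureTheory Set Metric

namespace Pool.Agent.Q53.FC.GH

open Pool.Agent.W716.FV (E gam gd)
open Pool.Agent.Q188.FC

theorem gd_cont (n : ℕ) : Continuous (gd n) := by
  unfold gd
  fun_prop

theorem gd_nonneg (n : ℕ) (x : E n) : 0 ≤ gd n x := by
  unfold gd
  positivity

/-- integrals with respect to the Gaussian measure -/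
theorem int_gam {n : ℕ} {W : Type} [NormedAddCommGroup W] [NormedSpace ℝ W] (f : E n → W) :
    ∫ z, f z ∂(gam n) = ∫ z, gd n z • f z := by
  unfold gam
  rw [integral_withDensity_eq_integral_toReal_smul]
  · refine integral_congr_ae (Filter.Eventually.of_forall fun z => ?_)
    simp only
    rw [ENNReal.toReal_ofReal (gd_nonneg n z)]
  · exact (gd_cont n).measurable.ennreal_ofReal
  · exact Filter.Eventually.of_forall fun z => ENNReal.ofReal_lt_top

theorem integrable_gam {n : ℕ} {W : Type} [NormedAddCommGroup W] [NormedSpace ℝ W] (f : E n → W) :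
    Integrable f (gam n) ↔ Integrable (fun z => gd n z • f z) := by
  unfold gam
  rw [integrable_withDensity_iff_integrable_smul']
  · refine integrable_congr (Filter.Eventually.of_forall fun z => ?_)
    simp only
    rw [ENNReal.toReal_ofReal (gd_nonneg n z)]
  · exact (gd_cont n).measurable.ennreal_ofReal
  · exact Filter.Eventually.of_forall fun z => ENNReal.ofReal_lt_top

/-- the second moments -/
theorem second {n : ℕ} (p : E n) : Integrable (fun z : E n => (inner ℝ p z : ℝ) • z) (gam n) ∧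
    ∫ z, (inner ℝ p z : ℝ) • z ∂(gam n) = p := by
  obtain ⟨-, hk, -, h2, -⟩ := Pool.Agent.W933.FVGM.main n
  have hint : Integrable (fun z : E n => (inner ℝ p z : ℝ) • z) (gam n) := by
    refine ((hk 2).const_mul ‖p‖).mono' (by fun_prop) (Filter.Eventually.of_forall fun z => ?_)
    rw [norm_smul]
    have h3 : ‖(inner ℝ p z : ℝ)‖ ≤ ‖p‖ * ‖z‖ := norm_inner_le_norm p z
    calc ‖(inner ℝ p z : ℝ)‖ * ‖z‖ ≤ ‖p‖ * ‖z‖ * ‖z‖ := by gcongr
      _ = ‖p‖ * ‖z‖ ^ 2 := by ring
  refine ⟨hint, ?_⟩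
  refine ext_inner_left ℝ fun v => ?_
  rw [← integral_inner hint v]
  have h3 : (fun z : E n => (inner ℝ v ((inner ℝ p z : ℝ) • z) : ℝ)) =
      fun z => (inner ℝ z v : ℝ) * inner ℝ z p := by
    funext z
    rw [real_inner_smul_right, real_inner_comm v z, real_inner_comm p z]
    ring
  rw [h3, h2]

theorem main (h1 : BoostAlg) (h2 : TLs) (h3 : HatLin) (h4 : CcBasic) : GGHat := by
  intro n p hp φ ψ hφ hψ hhat
  obtain ⟨b1, b2, b3, b4, -, -, -, -, b9, b10, -, -, -, -, -, -, b17⟩ := h1 n p hp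
  obtain ⟨-, l2, -, l4, l5, -, -⟩ := h3 n p hp
  obtain ⟨-, -, c3, -⟩ := h4 n ψ hψ
  have hψc : Continuous ψ := (h4 n ψ hψ).2.1
  have hl0 : 0 < lf p := by linarith
  set k : ℝ × E n → E n := fun c => (lf p)⁻¹ • NNL p (gd n c.2 • c.2) with hk
  have hkc : Continuous k := by
    have := gd_cont n
    rw [hk]
    fun_prop
  have hgk : ∀ t y, gk p t y = k (Lam p (t, y)) := by
    intro t y
    rw [b17, hk]
    simp only
    rw [b4]
  have hbd : ∀ (t : ℝ) (z : E n), |t| ≤ ‖z‖ →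
      ‖k (t, z)‖ ≤ ((lf p)⁻¹ * ‖NNL p‖) * (1 + ‖z‖) ^ 1 * gd n z := by
    intro t z _
    rw [hk]
    simp only
    rw [norm_smul, Real.norm_eq_abs, abs_of_pos (inv_pos.2 hl0), pow_one]
    have e1 : ‖NNL p (gd n z • z)‖ ≤ ‖NNL p‖ * ‖gd n z • z‖ := (NNL p).le_opNorm _
    rw [norm_smul, Real.norm_eq_abs, abs_of_nonneg (gd_nonneg n z)] at e1
    have e2 := gd_nonneg n z
    have e3 := norm_nonneg z
    have e4 : gd n z * ‖z‖ ≤ gd n z * (1 + ‖z‖) := by nlinarith
    calc (lf p)⁻¹ * ‖NNL p (gd n z • z)‖ ≤ (lf p)⁻¹ * (‖NNL p‖ * (gd n z * ‖z‖)) := by gcongr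
      _ ≤ (lf p)⁻¹ * (‖NNL p‖ * (gd n z * (1 + ‖z‖))) := by gcongr
      _ = _ := by ring
  obtain ⟨i1, i2, i3⟩ := h2 n p hp (fun _ => 0) φ (fun z => -inner ℝ p z) ψ l4 hφ l5 hψ l2 hhat
    (E n) k _ 1 hkc hbd
  obtain ⟨m1, m2⟩ := second p
  have m3 : Integrable (fun z : E n => ψ z • z) (gam n) := by
    obtain ⟨-, hk2, -⟩ := Pool.Agent.W933.FVGM.main n
    refine (hk2 2).mono' (by fun_prop) (Filter.Eventually.of_forall fun z => ?_)
    rw [norm_smul, Real.norm_eq_abs]
    have := c3 z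
    calc |ψ z| * ‖z‖ ≤ ‖z‖ * ‖z‖ := by gcongr
      _ = ‖z‖ ^ 2 := by ring
  have hinner : ∀ z : E n, ∫ t in (-inner ℝ p z : ℝ)..ψ z, k (t, z) =
      (lf p)⁻¹ • NNL p (gd n z • (ψ z • z + (inner ℝ p z : ℝ) • z)) := by
    intro z
    have e1 : (fun t : ℝ => k (t, z)) = fun _ => k (0, z) := rfl
    rw [e1, intervalIntegral.integral_const, hk]
    simp only [map_smul, map_add, smul_add, smul_smul]
    rw [← add_smul]
    congr 1
    ring
  have hcalc : ∫ y, ∫ t in (0 : ℝ)..φ y, gk p t y = (lf p)⁻¹ • NN p (mv ψ) + p := by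
    have e0 : ∫ y, ∫ t in (0 : ℝ)..φ y, gk p t y = ∫ y, ∫ t in (0 : ℝ)..φ y, k (Lam p (t, y)) := by
      simp only [hgk]
    rw [e0, i3]
    simp only [hinner]
    have e1 : Integrable (fun z : E n => ψ z • z + (inner ℝ p z : ℝ) • z) (gam n) := m3.add m1
    have e2 := (integrable_gam _).1 e1
    rw [integral_smul, (NNL p).integral_comp_comm e2, ← int_gam, integral_add m3 m1, m2,
      map_add, smul_add, b4, b4, b3, smul_smul, inv_mul_cancel₀ hl0.ne', one_smul]
    rfl
  have hG : GG p φ = (lf p)⁻¹ • NN p (mv ψ) := by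
    unfold GG
    rw [hcalc, add_sub_cancel_right]
  refine ⟨hG, ?_, ?_⟩
  · rw [hG]
    constructor
    · intro h
      rw [smul_eq_zero] at h
      rcases h with h | h
      · exact absurd h (inv_pos.2 hl0).ne'
      · rw [← b9 (mv ψ), h]
        unfold NI
        simp
    · intro h
      rw [h, ← b4, map_zero, smul_zero]
  · simp only [hgk]
    exact i1

end Pool.Agent.Q53.FC.GH
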