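import Pool.Agent.Q188.FC.StmC

/-!
# Project FC (helper188), job JF: the Jacobian
-/

set_option autoImplicit false

open MeasureTheory Set Metric

namespace Pool.Agent.Q53.FC.JF

open Pool.Agent.W716.FV (E)
open Pool.Agent.Q188.FC

theorem main (h1 : BoostAlg) (h2 : HatEx) (h3 : GGHat) (h4 : GGDer) (h5 : GGForm) (h6 : DetD)
    (h7 : DetT) (h8 : GaussFinal) : JacF := by
  intro n hn p hp φ hφ h0 L hL G hG D hD hDb T hT
  obtain ⟨ψ, hψ, hhat⟩ := h2 n p hp φ hφ
  have hm : mv ψ = 0 := ((h3 n p hp φ ψ hφ hψ hhat).2.1).1 h0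
  have hlf : 1 ≤ lf p := (h1 n p hp).1
  obtain ⟨L', hL', hform⟩ := h4 n φ hφ p hp
  have hLL : L = L' := hL.unique hL'
  have hLf : ∀ a a' : E n, (inner ℝ (L a) a' : ℝ) =
      -inner ℝ (NN p a) (NN p a') + qX ψ (NN p a) (NN p a') := by
    intro a a'
    rw [hLL, hform, h5 n p hp φ ψ hφ hψ hhat a a', hm, inner_zero_right, inner_zero_right]
    ring
  have hdet := h6 n p hp ψ hψ L hLf
  have hG8 := h8 n ψ hψ hm p hp.le
  have hT7 := h7 n hn p hp φ ψ hφ hψ hhat hm G hG D hD hDb T hT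
  set e := Real.exp (-(sv ψ + bv ψ p) / 2) with he
  have he0 : 0 < e := Real.exp_pos _
  set x := (1 - Xm ψ).det with hx
  have hx0 : 0 < x := by nlinarith
  have hl0 : 0 < lf p := by linarith
  rw [abs_of_pos hx0] at hdet
  constructor
  · intro h
    rw [h, abs_zero] at hdet
    have : 0 < lf p ^ 2 * x := by positivity
    linarith
  · calc |T.det| ≤ lf p * e * √G.det := hT7
      _ ≤ lf p * (100 / 81 * x) * √G.det := by gcongr
      _ = 100 / 81 * (lf p)⁻¹ * |L.det| * √G.det := by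
          rw [hdet]
          field_simp

end Pool.Agent.Q53.FC.JF
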